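import Mathlib

/-!
# The combinatorial part: balanced threshold functions on the 3-cube

A function on the 3-cube `{0, …, 7}` is coded by its truth table `t < 256`.
-/

set_option autoImplicit false

namespace Pool.Agent.TH231.RBM

/-- the 14 balanced threshold functions -/
def L14 : List ℕ := [15, 23, 43, 51, 77, 85, 113, 142, 170, 178, 204, 212, 232, 240]

/-- the relations `a + d = b + c` -/
def Q12 : List (ℕ × ℕ × ℕ × ℕ) :=
  [(0, 3, 1, 2), (4, 7, 5, 6), (0, 5, 1, 4), (2, 7, 3, 6), (0, 6, 2, 4), (1, 7, 3, 5),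
   (0, 7, 1, 6), (0, 7, 2, 5), (0, 7, 3, 4), (1, 6, 2, 5), (1, 6, 3, 4), (2, 5, 3, 4)]

/-- no relation is violated by the signs -/
def nb (t : ℕ) : Bool :=
  Q12.all fun q => !((t.testBit q.1 == t.testBit q.2.1) &&
    (t.testBit q.2.2.1 == t.testBit q.2.2.2) && (t.testBit q.1 != t.testBit q.2.2.1))

/-- number of ones -/
def pc (t : ℕ) : ℕ := ((List.range 8).map fun m => (t.testBit m).toNat).sum

/-- parity -/
def odd (n : ℕ) : Bool :=
  xor (xor (n.testBit 0) (n.testBit 1)) (xor (n.testBit 2) (n.testBit 3))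

/-- at `m` the function has a large margin -/
def strong (t m : ℕ) : Bool :=
  [(1, 2), (1, 4), (2, 4)].any fun p => (t.testBit (m ^^^ p.1) == t.testBit m) &&
    (t.testBit (m ^^^ p.2) == t.testBit m) && (t.testBit (m ^^^ (p.1 ^^^ p.2)) != t.testBit m)

/-- weight -/
def wt (t m : ℕ) (y : Bool) : ℕ := if t.testBit m = y then 0 else if strong t m then 3 else 1

/-- the four functions form a bijection onto the even vectors -/
def cond (t0 t1 t2 t3 : ℕ) : Bool :=
  ((List.range 8).all fun m =>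
    !(xor (xor (t0.testBit m) (t1.testBit m)) (xor (t2.testBit m) (t3.testBit m)))) &&
  ((List.range 8).all fun m => (List.range 8).all fun m' => (m == m') ||
    !((t0.testBit m == t0.testBit m') && (t1.testBit m == t1.testBit m') &&
      (t2.testBit m == t2.testBit m') && (t3.testBit m == t3.testBit m')))

/-- there is an odd vector far from everything -/
def concl (t0 t1 t2 t3 : ℕ) : Bool :=
  (List.range 16).any fun y => odd y && (List.range 8).all fun m =>
    decide (3 ≤ wt t0 m (y.testBit 0) + wt t1 m (y.testBit 1) + wt t2 m (y.testBit 2) +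
      wt t3 m (y.testBit 3))

theorem step1 : ((List.range 256).all fun t => !(pc t == 4 && nb t) || L14.contains t) = true := by
  decide +kernel

theorem step2 : (L14.all fun t0 => L14.all fun t1 => L14.all fun t2 => L14.all fun t3 =>
    !(cond t0 t1 t2 t3) || concl t0 t1 t2 t3) = true := by
  decide +kernel

theorem comb {t0 t1 t2 t3 : ℕ} (h0 : t0 < 256) (h1 : t1 < 256) (h2 : t2 < 256) (h3 : t3 < 256)
    (p0 : pc t0 = 4) (p1 : pc t1 = 4) (p2 : pc t2 = 4) (p3 : pc t3 = 4)
    (n0 : nb t0 = true) (n1 : nb t1 = true) (n2 : nb t2 = true) (n3 : nb t3 = true)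
    (hc : cond t0 t1 t2 t3 = true) :
    ∃ y < 16, odd y = true ∧ ∀ m < 8,
      3 ≤ wt t0 m (y.testBit 0) + wt t1 m (y.testBit 1) + wt t2 m (y.testBit 2) +
        wt t3 m (y.testBit 3) := by
  have key : ∀ t < 256, pc t = 4 → nb t = true → t ∈ L14 := by
    intro t ht hp hn
    have := List.all_eq_true.1 step1 t (List.mem_range.2 ht)
    simp only [hp, hn] at this
    simpa using this
  have hh := step2
  rw [List.all_eq_true] at hh
  have hh := hh t0 (key t0 h0 p0 n0)
  rw [List.all_eq_true] at hh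
  have hh := hh t1 (key t1 h1 p1 n1)
  rw [List.all_eq_true] at hh
  have hh := hh t2 (key t2 h2 p2 n2)
  rw [List.all_eq_true] at hh
  have hh := hh t3 (key t3 h3 p3 n3)
  rw [hc] at hh
  simp only [Bool.not_true, Bool.false_or] at hh
  unfold concl at hh
  rw [List.any_eq_true] at hh
  obtain ⟨y, hy, hy2⟩ := hh
  rw [Bool.and_eq_true, List.all_eq_true] at hy2
  refine ⟨y, List.mem_range.1 hy, hy2.1, fun m hm => ?_⟩
  have := hy2.2 m (List.mem_range.2 hm)
  exact of_decide_eq_true this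

/-- codes of truth tables -/
theorem enc8 : ∀ b0 b1 b2 b3 b4 b5 b6 b7 : Bool,
    (b0.toNat + 2 * b1.toNat + 4 * b2.toNat + 8 * b3.toNat + 16 * b4.toNat + 32 * b5.toNat +
      64 * b6.toNat + 128 * b7.toNat < 256) ∧
    ((b0.toNat + 2 * b1.toNat + 4 * b2.toNat + 8 * b3.toNat + 16 * b4.toNat + 32 * b5.toNat +
      64 * b6.toNat + 128 * b7.toNat).testBit 0 = b0) ∧
    ((b0.toNat + 2 * b1.toNat + 4 * b2.toNat + 8 * b3.toNat + 16 * b4.toNat + 32 * b5.toNat +
      64 * b6.toNat + 128 * b7.toNat).testBit 1 = b1) ∧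
    ((b0.toNat + 2 * b1.toNat + 4 * b2.toNat + 8 * b3.toNat + 16 * b4.toNat + 32 * b5.toNat +
      64 * b6.toNat + 128 * b7.toNat).testBit 2 = b2) ∧
    ((b0.toNat + 2 * b1.toNat + 4 * b2.toNat + 8 * b3.toNat + 16 * b4.toNat + 32 * b5.toNat +
      64 * b6.toNat + 128 * b7.toNat).testBit 3 = b3) ∧
    ((b0.toNat + 2 * b1.toNat + 4 * b2.toNat + 8 * b3.toNat + 16 * b4.toNat + 32 * b5.toNat +
      64 * b6.toNat + 128 * b7.toNat).testBit 4 = b4) ∧
    ((b0.toNat + 2 * b1.toNat + 4 * b2.toNat + 8 * b3.toNat + 16 * b4.toNat + 32 * b5.toNat +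
      64 * b6.toNat + 128 * b7.toNat).testBit 5 = b5) ∧
    ((b0.toNat + 2 * b1.toNat + 4 * b2.toNat + 8 * b3.toNat + 16 * b4.toNat + 32 * b5.toNat +
      64 * b6.toNat + 128 * b7.toNat).testBit 6 = b6) ∧
    ((b0.toNat + 2 * b1.toNat + 4 * b2.toNat + 8 * b3.toNat + 16 * b4.toNat + 32 * b5.toNat +
      64 * b6.toNat + 128 * b7.toNat).testBit 7 = b7) := by
  decide +kernel

theorem exists_code (g : ℕ → Bool) : ∃ t < 256, ∀ m < 8, t.testBit m = g m := by
  obtain ⟨h, h0, h1, h2, h3, h4, h5, h6, h7⟩ := enc8 (g 0) (g 1) (g 2) (g 3) (g 4) (g 5) (g 6) (g 7)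
  refine ⟨_, h, fun m hm => ?_⟩
  interval_cases m <;> assumption

end Pool.Agent.TH231.RBM
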