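import Pool.Agent.TH231.RBM.Comb

/-!
# The analytic part
-/

set_option autoImplicit false

open Finset

namespace Pool.Agent.TH231.RBM

/-- logarithm of the contribution of the hidden state `m` to the visible state `n` -/
noncomputable def G (L : ℕ → ℕ → ℝ) (K : ℕ → ℝ) (m n : ℕ) : ℝ :=
  (∑ j ∈ range 4, if n.testBit j then L j m else 0) + K m

/-- bit sums -/
def Par (a d b c : ℕ) : Prop :=
  ∀ i < 3, (a.testBit i).toNat + (d.testBit i).toNat = (b.testBit i).toNat + (c.testBit i).toNat

instance (a d b c : ℕ) : Decidable (Par a d b c) := by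
  unfold Par
  infer_instance

theorem testBit_flip (x i j : ℕ) : (x ^^^ 2 ^ j).testBit i = xor (x.testBit i) (decide (j = i)) := by
  rw [Nat.testBit_xor, Nat.testBit_two_pow]

variable {L : ℕ → ℕ → ℝ} {K : ℕ → ℝ}

theorem G_flip (m x j : ℕ) (hj : j < 4) :
    G L K m (x ^^^ 2 ^ j) = G L K m x + (if x.testBit j then -(L j m) else L j m) := by
  unfold G
  have h1 : ∀ i ∈ range 4, (if (x ^^^ 2 ^ j).testBit i then L i m else 0) =
      (if x.testBit i then L i m else 0) +
        (if i = j then (if x.testBit j then -(L j m) else L j m) else 0) := by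
    intro i _
    rw [testBit_flip]
    by_cases hij : i = j
    · subst hij
      cases x.testBit i <;> simp
    · have : ¬ (j = i) := fun h => hij h.symm
      simp [hij, this]
  rw [sum_congr rfl h1, sum_add_distrib, sum_ite_eq' (range 4) j]
  simp only [mem_range, hj, if_true]
  ring

theorem G_exch (m x x' j : ℕ) (hj : j < 4) (h : x.testBit j ≠ x'.testBit j) :
    G L K m (x ^^^ 2 ^ j) + G L K m (x' ^^^ 2 ^ j) = G L K m x + G L K m x' := by
  rw [G_flip m x j hj, G_flip m x' j hj]
  cases hx : x.testBit j <;> cases hx' : x'.testBit j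
  · exact absurd (hx.trans hx'.symm) h
  · simp only [Bool.false_eq_true, if_false, if_true]
    ring
  · simp only [Bool.false_eq_true, if_false, if_true]
    ring
  · exact absurd (hx.trans hx'.symm) h

theorem G_diff (m x y : ℕ) :
    G L K m y = G L K m x + ∑ j ∈ range 4, if x.testBit j = y.testBit j then 0 else
      (if x.testBit j then -(L j m) else L j m) := by
  unfold G
  have h1 : ∀ i ∈ range 4, (if y.testBit i then L i m else 0) =
      (if x.testBit i then L i m else 0) + (if x.testBit i = y.testBit i then 0 else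
      (if x.testBit i then -(L i m) else L i m)) := by
    intro i _
    cases x.testBit i <;> cases y.testBit i <;> simp
  rw [sum_congr rfl h1, sum_add_distrib]
  ring

/-! decidable facts -/

theorem d_flip : ∀ x < 16, ∀ j < 4, (x ^^^ 2 ^ j) < 16 ∧ odd (x ^^^ 2 ^ j) = !(odd x) := by
  decide +kernel

theorem d_ext : ∀ x < 16, ∀ x' < 16, x ≠ x' → ∃ j < 4, x.testBit j ≠ x'.testBit j := by
  decide +kernel

theorem d_card : ((range 16).filter fun n => odd n = false).card = 8 := by
  decide +kernel

theorem d_four : ∀ j < 4,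
    (∑ x ∈ (range 16).filter (fun n => odd n = false), (x.testBit j).toNat) = 4 := by
  decide +kernel

theorem d_odd : ∀ n : ℕ, odd n = xor (xor (n.testBit 0) (n.testBit 1))
    (xor (n.testBit 2) (n.testBit 3)) := fun _ => rfl

theorem d_parQ : ∀ q ∈ Q12, q.1 < 8 ∧ q.2.1 < 8 ∧ q.2.2.1 < 8 ∧ q.2.2.2 < 8 ∧
    Par q.1 q.2.1 q.2.2.1 q.2.2.2 := by
  decide +kernel

theorem d_parS : ∀ m < 8, ∀ p ∈ [(1, 2), (1, 4), (2, 4)], (m ^^^ p.1) < 8 ∧ (m ^^^ p.2) < 8 ∧
    (m ^^^ (p.1 ^^^ p.2)) < 8 ∧ Par m (m ^^^ (p.1 ^^^ p.2)) (m ^^^ p.1) (m ^^^ p.2) := by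
  decide +kernel

/-- the core statement -/
theorem core (hpar : ∀ j < 4, ∀ a < 8, ∀ d < 8, ∀ b < 8, ∀ c < 8, Par a d b c →
      L j a + L j d = L j b + L j c)
    (p : ℕ → ℝ) (hp : ∀ n < 16, p n = ∑ m ∈ range 8, Real.exp (G L K m n))
    (he : ∀ n < 16, odd n = false → 0.119 ≤ p n ∧ p n ≤ 0.121)
    (ho : ∀ n < 16, odd n = true → 0.004 ≤ p n ∧ p n ≤ 0.006) : False := by
  classical
  have hP0 : ∀ m n, 0 < Real.exp (G L K m n) := fun m n => Real.exp_pos _
  have hle : ∀ m < 8, ∀ n < 16, Real.exp (G L K m n) ≤ p n := by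
    intro m hm n hn
    rw [hp n hn]
    exact single_le_sum (f := fun m => Real.exp (G L K m n)) (fun m _ => (hP0 m n).le)
      (mem_range.2 hm)
  -- (2) at most one even point
  have uniq : ∀ m < 8, ∀ x < 16, ∀ x' < 16, odd x = false → odd x' = false →
      0.006 < Real.exp (G L K m x) → 0.006 < Real.exp (G L K m x') → x = x' := by
    intro m hm x hx x' hx' ox ox' h1 h2
    by_contra hne
    obtain ⟨j, hj, hjj⟩ := d_ext x hx x' hx' hne
    have hy := d_flip x hx j hj
    have hy' := d_flip x' hx' j hj
    have b1 := (hle m hm _ hy.1).trans (ho _ hy.1 (by rw [hy.2, ox]; rfl)).2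
    have b2 := (hle m hm _ hy'.1).trans (ho _ hy'.1 (by rw [hy'.2, ox']; rfl)).2
    have e1 : Real.exp (G L K m (x ^^^ 2 ^ j)) * Real.exp (G L K m (x' ^^^ 2 ^ j)) =
        Real.exp (G L K m x) * Real.exp (G L K m x') := by
      rw [← Real.exp_add, ← Real.exp_add, G_exch m x x' j hj hjj]
    have e2 : Real.exp (G L K m (x ^^^ 2 ^ j)) * Real.exp (G L K m (x' ^^^ 2 ^ j)) ≤
        0.006 * 0.006 := mul_le_mul b1 b2 (hP0 _ _).le (by norm_num)
    have e3 : (0.006 : ℝ) * 0.006 < Real.exp (G L K m x) * Real.exp (G L K m x') :=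
      mul_lt_mul'' h1 h2 (by norm_num) (by norm_num)
    linarith
  -- (3) existence
  have exi : ∀ x < 16, odd x = false → ∃ m < 8, 0.006 < Real.exp (G L K m x) := by
    intro x hx ox
    by_contra hcon
    push Not at hcon
    have h1 := (he x hx ox).1
    rw [hp x hx] at h1
    have h2 : ∑ m ∈ range 8, Real.exp (G L K m x) ≤ ∑ m ∈ range 8, (0.006 : ℝ) :=
      sum_le_sum fun m hm => hcon m (mem_range.1 hm)
    simp at h2
    linarith
  -- (4) bijection
  set evs := (range 16).filter fun n => odd n = false with hevs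
  have hmem : ∀ x, x ∈ evs ↔ x < 16 ∧ odd x = false := by
    intro x
    simp [hevs]
  have exi' : ∀ x, ∃ m, x ∈ evs → m < 8 ∧ 0.006 < Real.exp (G L K m x) := by
    intro x
    by_cases hx : x ∈ evs
    · obtain ⟨m, hm1, hm2⟩ := exi x ((hmem x).1 hx).1 ((hmem x).1 hx).2
      exact ⟨m, fun _ => ⟨hm1, hm2⟩⟩
    · exact ⟨0, fun h => absurd h hx⟩
  choose M hM using exi'
  have Minj : Set.InjOn M evs := by
    intro x hx x' hx' hxx
    have hx0 := (hmem x).1 hx
    have hx0' := (hmem x').1 hx'
    have h1 := hM x hx
    have h2 := hM x' hx'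
    rw [← hxx] at h2
    exact uniq (M x) h1.1 x hx0.1 x' hx0'.1 hx0.2 hx0'.2 h1.2 h2.2
  have himg : evs.image M = range 8 := by
    refine eq_of_subset_of_card_le ?_ ?_
    · intro m hm
      rw [mem_image] at hm
      obtain ⟨x, hx, rfl⟩ := hm
      exact mem_range.2 (hM x hx).1
    · rw [card_image_of_injOn Minj, hevs, d_card]
      simp
  have exX : ∀ m, ∃ x, m < 8 → x ∈ evs ∧ M x = m := by
    intro m
    by_cases hm : m < 8
    · have : m ∈ evs.image M := by
        rw [himg]
        exact mem_range.2 hm
      rw [mem_image] at this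
      obtain ⟨x, hx, hx2⟩ := this
      exact ⟨x, fun _ => ⟨hx, hx2⟩⟩
    · exact ⟨0, fun h => absurd h hm⟩
  choose X hX using exX
  have X16 : ∀ m < 8, X m < 16 := fun m hm => ((hmem _).1 (hX m hm).1).1
  have Xev : ∀ m < 8, odd (X m) = false := fun m hm => ((hmem _).1 (hX m hm).1).2
  have Xbig : ∀ m < 8, 0.006 < Real.exp (G L K m (X m)) := by
    intro m hm
    have := (hM (X m) (hX m hm).1).2
    rwa [(hX m hm).2] at this
  have Xinj : ∀ m < 8, ∀ m' < 8, X m = X m' → m = m' := by
    intro m hm m' hm' h
    rw [← (hX m hm).2, ← (hX m' hm').2, h]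
  -- large value
  have Xlarge : ∀ m < 8, 0.077 ≤ Real.exp (G L K m (X m)) := by
    intro m hm
    have h1 := (he (X m) (X16 m hm) (Xev m hm)).1
    rw [hp _ (X16 m hm), ← add_sum_erase _ _ (mem_range.2 hm)] at h1
    have h2 : ∑ m' ∈ (range 8).erase m, Real.exp (G L K m' (X m)) ≤
        ∑ m' ∈ (range 8).erase m, (0.006 : ℝ) := by
      refine sum_le_sum fun m' hm' => ?_
      rw [mem_erase, mem_range] at hm'
      by_contra hcon
      push Not at hcon
      have := uniq m' hm'.2 (X m) (X16 m hm) (X m') (X16 m' hm'.2) (Xev m hm) (Xev m' hm'.2)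
        hcon (Xbig m' hm'.2)
      exact hm'.1 (Xinj m hm m' hm'.2 this).symm
    rw [sum_const, card_erase_of_mem (mem_range.2 hm), card_range] at h2
    simp only [smul_eq_mul, nsmul_eq_mul] at h2
    norm_num at h2
    linarith
  set A : ℝ := Real.log 12 with hA
  have hA0 : 0 < A := Real.log_pos (by norm_num)
  -- margins
  have marg : ∀ j < 4, ∀ m < 8, A ≤ (if (X m).testBit j then L j m else -(L j m)) := by
    intro j hj m hm
    have hy := d_flip (X m) (X16 m hm) j hj
    have b1 := (hle m hm _ hy.1).trans (ho _ hy.1 (by rw [hy.2, Xev m hm]; rfl)).2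
    have b2 := Xlarge m hm
    have b3 : 12 * Real.exp (G L K m (X m ^^^ 2 ^ j)) ≤ Real.exp (G L K m (X m)) := by linarith
    rw [G_flip m (X m) j hj] at b3
    have b4 : A + (G L K m (X m) + (if (X m).testBit j then -(L j m) else L j m)) ≤
        G L K m (X m) := by
      have : Real.exp (A + (G L K m (X m) + (if (X m).testBit j then -(L j m) else L j m))) ≤
          Real.exp (G L K m (X m)) := by
        rw [Real.exp_add, hA, Real.exp_log (by norm_num)]
        exact b3
      exact Real.exp_le_exp.1 this
    cases h : (X m).testBit j <;> simp only [h] at b4 ⊢ <;> simp at b4 ⊢ <;> linarith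
  -- codes
  have hcode : ∀ j, ∃ t < 256, ∀ m < 8, t.testBit m = (X m).testBit j := fun j =>
    exists_code fun m => (X m).testBit j
  choose t ht256 htb using hcode
  have hsum : ∀ j < 4, pc (t j) = 4 := by
    intro j hj
    have h1 : pc (t j) = ∑ m ∈ range 8, ((X m).testBit j).toNat := by
      have h2 : pc (t j) = ∑ m ∈ range 8, ((t j).testBit m).toNat := by
        simp only [pc, sum_range_succ, List.range_succ, List.map_append, List.sum_append]
        simp
      rw [h2]
      exact sum_congr rfl fun m hm => by rw [htb j m (mem_range.1 hm)]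
    have h3 : (range 8).image X = evs := by
      refine eq_of_subset_of_card_le ?_ ?_
      · intro x hx
        rw [mem_image] at hx
        obtain ⟨m, hm, rfl⟩ := hx
        exact (hX m (mem_range.1 hm)).1
      · rw [card_image_of_injOn (fun m hm m' hm' h =>
          Xinj m (by simpa using hm) m' (by simpa using hm') h), hevs, d_card]
        simp
    rw [h1, ← d_four j hj, ← hevs, ← h3, sum_image fun m hm m' hm' h =>
      Xinj m (by simpa using hm) m' (by simpa using hm') h]
  have posneg : ∀ j < 4, ∀ m < 8, ((t j).testBit m = true → A ≤ L j m) ∧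
      ((t j).testBit m = false → L j m ≤ -A) := by
    intro j hj m hm
    have h := marg j hj m hm
    rw [htb j m hm]
    constructor
    · intro hb
      rw [hb] at h
      simpa using h
    · intro hb
      rw [hb] at h
      simp at h
      linarith
  have hnb : ∀ j < 4, nb (t j) = true := by
    intro j hj
    unfold nb
    rw [List.all_eq_true]
    intro q hq
    obtain ⟨qa, qd, qb, qc, hpr⟩ := d_parQ q hq
    have hrel := hpar j hj q.1 qa q.2.1 qd q.2.2.1 qb q.2.2.2 qc hpr
    have ha := posneg j hj q.1 qa
    have hd := posneg j hj q.2.1 qd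
    have hb := posneg j hj q.2.2.1 qb
    have hc := posneg j hj q.2.2.2 qc
    cases e1 : (t j).testBit q.1 <;> cases e2 : (t j).testBit q.2.1 <;>
      cases e3 : (t j).testBit q.2.2.1 <;> cases e4 : (t j).testBit q.2.2.2 <;>
      first
      | rfl
      | (exfalso
         have ha1 := ha.1
         have ha2 := ha.2
         have hd1 := hd.1
         have hd2 := hd.2
         have hb1 := hb.1
         have hb2 := hb.2
         have hc1 := hc.1
         have hc2 := hc.2
         simp only [e1, e2, e3, e4, forall_const, reduceCtorEq, false_implies] at ha1 ha2 hd1 hd2 hb1 hb2 hc1 hc2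
         linarith)
  have hcond : cond (t 0) (t 1) (t 2) (t 3) = true := by
    unfold cond
    rw [Bool.and_eq_true, List.all_eq_true, List.all_eq_true]
    constructor
    · intro m hm
      have hm' := List.mem_range.1 hm
      rw [htb 0 m hm', htb 1 m hm', htb 2 m hm', htb 3 m hm', ← d_odd, Xev m hm']
      rfl
    · intro m hm
      rw [List.all_eq_true]
      intro m' hm'
      have h1 := List.mem_range.1 hm
      have h2 := List.mem_range.1 hm'
      by_cases hmm : m = m'
      · simp [hmm]
      · have hne : X m ≠ X m' := fun h => hmm (Xinj m h1 m' h2 h)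
        obtain ⟨j, hj, hjj⟩ := d_ext (X m) (X16 m h1) (X m') (X16 m' h2) hne
        rw [htb 0 m h1, htb 1 m h1, htb 2 m h1, htb 3 m h1, htb 0 m' h2, htb 1 m' h2,
          htb 2 m' h2, htb 3 m' h2]
        have hjj' : ((X m).testBit j == (X m').testBit j) = false := by
          rw [beq_eq_false_iff_ne]
          exact hjj
        interval_cases j <;> simp only [hjj', Bool.and_false, Bool.false_and, Bool.not_false,
          Bool.or_true]
  obtain ⟨y, hy, oy, hyw⟩ := comb (ht256 0) (ht256 1) (ht256 2) (ht256 3)
    (hsum 0 (by norm_num)) (hsum 1 (by norm_num)) (hsum 2 (by norm_num)) (hsum 3 (by norm_num))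
    (hnb 0 (by norm_num)) (hnb 1 (by norm_num)) (hnb 2 (by norm_num)) (hnb 3 (by norm_num)) hcond
  -- margins with weights
  have margw : ∀ j < 4, ∀ m < 8, (wt (t j) m (y.testBit j) : ℝ) * A ≤
      (if (X m).testBit j = y.testBit j then 0 else
        (if (X m).testBit j then L j m else -(L j m))) := by
    intro j hj m hm
    unfold wt
    rw [htb j m hm]
    by_cases hb : (X m).testBit j = y.testBit j
    · simp [hb]
    · rw [if_neg hb, if_neg hb]
      by_cases hs : strong (t j) m = true
      · rw [if_pos hs]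
        unfold strong at hs
        rw [List.any_eq_true] at hs
        obtain ⟨q, hq, hq2⟩ := hs
        obtain ⟨q1, q2, q3, hpr⟩ := d_parS m hm q hq
        have hrel := hpar j hj m hm _ q3 _ q1 _ q2 hpr
        simp only [Bool.and_eq_true, beq_iff_eq, bne_iff_ne, ne_eq] at hq2
        obtain ⟨⟨s1, s2⟩, s3⟩ := hq2
        have g0 := posneg j hj m hm
        have g1 := posneg j hj _ q1
        have g2 := posneg j hj _ q2
        have g3 := posneg j hj _ q3
        rw [s1] at g1
        rw [s2] at g2
        rw [← htb j m hm]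
        cases e : (t j).testBit m
        · rw [e] at g1 g2 s3
          have e3 : (t j).testBit (m ^^^ (q.1 ^^^ q.2)) = true := by
            cases e4 : (t j).testBit (m ^^^ (q.1 ^^^ q.2))
            · exact absurd e4 s3
            · rfl
          have k1 := g1.2 rfl
          have k2 := g2.2 rfl
          have k3 := g3.1 e3
          simp
          linarith
        · rw [e] at g1 g2 s3
          have e3 : (t j).testBit (m ^^^ (q.1 ^^^ q.2)) = false := by
            cases e4 : (t j).testBit (m ^^^ (q.1 ^^^ q.2))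
            · rfl
            · exact absurd e4 s3
          have k1 := g1.1 rfl
          have k2 := g2.1 rfl
          have k3 := g3.2 e3
          simp
          linarith
      · rw [if_neg hs]
        simpa using marg j hj m hm
  -- conclusion
  have hsmall : ∀ m < 8, Real.exp (G L K m y) ≤ 0.121 / 1728 := by
    intro m hm
    have h1 : G L K m y ≤ G L K m (X m) - 3 * A := by
      rw [G_diff m (X m) y]
      have h2 : ∑ j ∈ range 4, (if (X m).testBit j = y.testBit j then 0 else
          (if (X m).testBit j then -(L j m) else L j m)) =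
          -∑ j ∈ range 4, (if (X m).testBit j = y.testBit j then 0 else
          (if (X m).testBit j then L j m else -(L j m))) := by
        rw [← sum_neg_distrib]
        refine sum_congr rfl fun j _ => ?_
        split_ifs <;> simp
      rw [h2]
      have h3 : ∑ j ∈ range 4, (wt (t j) m (y.testBit j) : ℝ) * A ≤
          ∑ j ∈ range 4, (if (X m).testBit j = y.testBit j then 0 else
          (if (X m).testBit j then L j m else -(L j m))) :=
        sum_le_sum fun j hj => margw j (mem_range.1 hj) m hm
      have h4 := hyw m hm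
      have h5 : (3 : ℝ) * A ≤ ∑ j ∈ range 4, (wt (t j) m (y.testBit j) : ℝ) * A := by
        rw [← sum_mul]
        refine mul_le_mul_of_nonneg_right ?_ hA0.le
        simp only [sum_range_succ, sum_range_zero, zero_add]
        exact_mod_cast h4
      linarith
    calc Real.exp (G L K m y) ≤ Real.exp (G L K m (X m) - 3 * A) := Real.exp_le_exp.2 h1
      _ = Real.exp (G L K m (X m)) / 1728 := by
          rw [Real.exp_sub]
          congr 1
          have : Real.exp (3 * A) = Real.exp A ^ 3 := by
            rw [← Real.exp_nat_mul]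
            norm_num
          rw [this, hA, Real.exp_log (by norm_num)]
          norm_num
      _ ≤ 0.121 / 1728 := by
          have h6 := (hle m hm _ (X16 m hm)).trans (he _ (X16 m hm) (Xev m hm)).2
          linarith
  have h1 := (ho y hy oy).1
  rw [hp y hy] at h1
  have h2 : ∑ m ∈ range 8, Real.exp (G L K m y) ≤ ∑ m ∈ range 8, (0.121 / 1728 : ℝ) :=
    sum_le_sum fun m hm => hsmall m (mem_range.1 hm)
  rw [sum_const, card_range] at h2
  norm_num at h2
  linarith

end Pool.Agent.TH231.RBM
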