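import Pool.Agent.TH231.RBM.Core

/-!
# From the analytic part to restricted Boltzmann machines
-/

set_option autoImplicit false

open Finset

namespace Pool.Agent.TH231.RBM

/-- visible vector with code `n` -/
def vv (n : ℕ) : Fin 4 → Bool := fun j => n.testBit j

/-- hidden vector with code `m` -/
def hh (m : ℕ) : Fin 3 → Bool := fun i => m.testBit i

theorem vv_bij : Function.Bijective (fun n : Fin 16 => vv n) := by
  rw [Fintype.bijective_iff_injective_and_card]
  refine ⟨?_, by simp⟩
  intro n n' h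
  have h0 := congrFun h 0
  have h1 := congrFun h 1
  have h2 := congrFun h 2
  have h3 := congrFun h 3
  revert n n'
  unfold vv
  decide +kernel

theorem hh_bij : Function.Bijective (fun n : Fin 8 => hh n) := by
  rw [Fintype.bijective_iff_injective_and_card]
  refine ⟨?_, by simp⟩
  intro n n' h
  have h0 := congrFun h 0
  have h1 := congrFun h 1
  have h2 := congrFun h 2
  revert n n'
  unfold hh
  decide +kernel

theorem sum_vv (f : (Fin 4 → Bool) → ℝ) : ∑ v, f v = ∑ n ∈ range 16, f (vv n) := by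
  rw [← Fin.sum_univ_eq_sum_range (fun n => f (vv n)) 16]
  exact (Function.Bijective.sum_comp vv_bij f).symm

theorem sum_hh (f : (Fin 3 → Bool) → ℝ) : ∑ h, f h = ∑ m ∈ range 8, f (hh m) := by
  rw [← Fin.sum_univ_eq_sum_range (fun m => f (hh m)) 8]
  exact (Function.Bijective.sum_comp hh_bij f).symm

/-- the target distribution -/
noncomputable def tgt (v : Fin 4 → Bool) : ℝ :=
  if xor (xor (v 0) (v 1)) (xor (v 2) (v 3)) then 0.005 else 0.12

theorem tgt_vv (n : ℕ) : tgt (vv n) = if odd n then 0.005 else 0.12 := by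
  unfold tgt vv odd
  rfl

theorem d_parity : ∀ n < 16, odd n = decide (n ∈ [1, 2, 4, 7, 8, 11, 13, 14]) := by
  decide +kernel

theorem sum_tgt : ∑ v, tgt v = 1 := by
  rw [sum_vv]
  have h : ∀ n ∈ range 16, tgt (vv n) =
      if n ∈ [1, 2, 4, 7, 8, 11, 13, 14] then 0.005 else 0.12 := by
    intro n hn
    rw [tgt_vv, d_parity n (mem_range.1 hn)]
    simp only [decide_eq_true_eq]
  rw [sum_congr rfl h]
  simp [sum_range_succ]
  norm_num

/-- the energy -/
noncomputable def En (W : Fin 3 → Fin 4 → ℝ) (b : Fin 4 → ℝ) (c : Fin 3 → ℝ) (h : Fin 3 → Bool)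
    (v : Fin 4 → Bool) : ℝ :=
  ∑ i : Fin 3, ∑ j : Fin 4, W i j * (if h i then (1:ℝ) else 0) * (if v j then (1:ℝ) else 0)
    + ∑ j : Fin 4, b j * (if v j then (1:ℝ) else 0)
    + ∑ i : Fin 3, c i * (if h i then (1:ℝ) else 0)

theorem no_approx (W : Fin 3 → Fin 4 → ℝ) (b : Fin 4 → ℝ) (c : Fin 3 → ℝ)
    (H : ∀ v : Fin 4 → Bool, |(∑ h : Fin 3 → Bool, Real.exp (En W b c h v)) /
      (∑ v' : Fin 4 → Bool, ∑ h : Fin 3 → Bool, Real.exp (En W b c h v')) - tgt v| < 0.001) :
    False := by
  set Z : ℝ := ∑ v' : Fin 4 → Bool, ∑ h : Fin 3 → Bool, Real.exp (En W b c h v') with hZ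
  have hZ0 : 0 < Z := sum_pos (fun _ _ => sum_pos (fun _ _ => Real.exp_pos _) univ_nonempty)
    univ_nonempty
  set L : ℕ → ℕ → ℝ := fun j m => if hj : j < 4 then
    b ⟨j, hj⟩ + ∑ i : Fin 3, W i ⟨j, hj⟩ * ((m.testBit i).toNat : ℝ) else 0 with hL
  set K : ℕ → ℝ := fun m => ∑ i : Fin 3, c i * ((m.testBit i).toNat : ℝ) - Real.log Z with hK
  have hG : ∀ m n : ℕ, Real.exp (En W b c (hh m) (vv n)) / Z = Real.exp (G L K m n) := by
    intro m n
    have h1 : G L K m n = En W b c (hh m) (vv n) - Real.log Z := by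
      simp only [G, En, hL, hK, vv, hh, sum_range_succ, sum_range_zero, Fin.sum_univ_four,
        Fin.sum_univ_three, Fin.isValue, Fin.val_zero, Fin.val_one, Fin.val_two]
      have e3 : ((3 : Fin 4) : ℕ) = 3 := rfl
      simp only [e3]
      have t : ∀ x : Bool, ((x.toNat : ℕ) : ℝ) = if x then 1 else 0 := by
        intro x
        cases x <;> simp
      simp only [t]
      simp only [show (0:ℕ) < 4 by norm_num, show (1:ℕ) < 4 by norm_num, show (2:ℕ) < 4 by norm_num,
        show (3:ℕ) < 4 by norm_num, dif_pos]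
      have f0 : (⟨0, by norm_num⟩ : Fin 4) = 0 := rfl
      have f1 : (⟨1, by norm_num⟩ : Fin 4) = 1 := rfl
      have f2 : (⟨2, by norm_num⟩ : Fin 4) = 2 := rfl
      have f3 : (⟨3, by norm_num⟩ : Fin 4) = 3 := rfl
      simp only [f0, f1, f2, f3]
      by_cases g0 : n.testBit 0 = true <;> by_cases g1 : n.testBit 1 = true <;>
        by_cases g2 : n.testBit 2 = true <;> by_cases g3 : n.testBit 3 = true <;>
        simp only [g0, g1, g2, g3, Bool.false_eq_true, if_false, if_true] <;> ring_nf
    rw [h1, Real.exp_sub, Real.exp_log hZ0]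
  refine core (L := L) (K := K) ?_
    (fun n => (∑ h : Fin 3 → Bool, Real.exp (En W b c h (vv n))) / Z) ?_ ?_ ?_
  · intro j hj x _ d _ y _ z _ hpar
    simp only [hL, dif_pos hj, Fin.sum_univ_three]
    have p0 : ((x.testBit 0).toNat : ℝ) + (d.testBit 0).toNat =
        (y.testBit 0).toNat + (z.testBit 0).toNat := by exact_mod_cast hpar 0 (by norm_num)
    have p1 : ((x.testBit 1).toNat : ℝ) + (d.testBit 1).toNat =
        (y.testBit 1).toNat + (z.testBit 1).toNat := by exact_mod_cast hpar 1 (by norm_num)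
    have p2 : ((x.testBit 2).toNat : ℝ) + (d.testBit 2).toNat =
        (y.testBit 2).toNat + (z.testBit 2).toNat := by exact_mod_cast hpar 2 (by norm_num)
    simp only [Fin.isValue, Fin.val_zero, Fin.val_one, Fin.val_two]
    linear_combination W 0 ⟨j, hj⟩ * p0 + W 1 ⟨j, hj⟩ * p1 + W 2 ⟨j, hj⟩ * p2
  · intro n _
    rw [sum_hh, sum_div]
    exact sum_congr rfl fun m _ => hG m n
  · intro n _ ho
    have h := H (vv n)
    rw [tgt_vv, ho, abs_lt] at h
    simp only [Bool.false_eq_true, if_false] at h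
    constructor
    · have := h.1
      norm_num at this ⊢
      linarith
    · have := h.2
      norm_num at this ⊢
      linarith
  · intro n _ ho
    have h := H (vv n)
    rw [tgt_vv, ho, abs_lt] at h
    simp only [if_true] at h
    constructor
    · have := h.1
      norm_num at this ⊢
      linarith
    · have := h.2
      norm_num at this ⊢
      linarith

end Pool.Agent.TH231.RBM
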