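import Pool.Agent.TH231.RBM.Core2
import Pool.Agent.TH231.RBM.Fin

/-!
# No restricted Boltzmann machine with 4 visible and 3 hidden units in an explicit box
-/

set_option autoImplicit false

open Finset

namespace Pool.Agent.TH231.RBM

theorem no_box {a a' d d' : ℝ} (hd : 0 < d) (had : 8 * d < a)
    (hlast : 8 * a' * d ^ 3 < d' * (a - 7 * d) ^ 3)
    (W : Fin 3 → Fin 4 → ℝ) (b : Fin 4 → ℝ) (c : Fin 3 → ℝ)
    (he : ∀ n < 16, odd n = false → a ≤ (∑ h : Fin 3 → Bool, Real.exp (En W b c h (vv n))) /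
      (∑ v' : Fin 4 → Bool, ∑ h : Fin 3 → Bool, Real.exp (En W b c h v')) ∧
      (∑ h : Fin 3 → Bool, Real.exp (En W b c h (vv n))) /
      (∑ v' : Fin 4 → Bool, ∑ h : Fin 3 → Bool, Real.exp (En W b c h v')) ≤ a')
    (ho : ∀ n < 16, odd n = true → d' ≤ (∑ h : Fin 3 → Bool, Real.exp (En W b c h (vv n))) /
      (∑ v' : Fin 4 → Bool, ∑ h : Fin 3 → Bool, Real.exp (En W b c h v')) ∧
      (∑ h : Fin 3 → Bool, Real.exp (En W b c h (vv n))) /
      (∑ v' : Fin 4 → Bool, ∑ h : Fin 3 → Bool, Real.exp (En W b c h v')) ≤ d) :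
    False := by
  set Z : ℝ := ∑ v' : Fin 4 → Bool, ∑ h : Fin 3 → Bool, Real.exp (En W b c h v') with hZ
  have hZ0 : 0 < Z := sum_pos (fun _ _ => sum_pos (fun _ _ => Real.exp_pos _) univ_nonempty)
    univ_nonempty
  set L : ℕ → ℕ → ℝ := fun j m => if hj : j < 4 then
    b ⟨j, hj⟩ + ∑ i : Fin 3, W i ⟨j, hj⟩ * ((m.testBit i).toNat : ℝ) else 0 with hL
  set K : ℕ → ℝ := fun m => ∑ i : Fin 3, c i * ((m.testBit i).toNat : ℝ) - Real.log Z with hK
  have hG : ∀ m n : ℕ, Real.exp (En W b c (hh m) (vv n)) / Z = Real.exp (G L K m n) := by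
    intro m n
    have h1 : G L K m n = En W b c (hh m) (vv n) - Real.log Z := by
      simp only [G, En, hL, hK, vv, hh, sum_range_succ, sum_range_zero, Fin.sum_univ_four,
        Fin.sum_univ_three, Fin.isValue, Fin.val_zero, Fin.val_one, Fin.val_two]
      have e3 : ((3 : Fin 4) : ℕ) = 3 := rfl
      simp only [e3]
      have t : ∀ x : Bool, ((x.toNat : ℕ) : ℝ) = if x then 1 else 0 := by
        intro x
        cases x <;> simp
      simp only [t]
      simp only [show (0:ℕ) < 4 by norm_num, show (1:ℕ) < 4 by norm_num, show (2:ℕ) < 4 by norm_num,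
        show (3:ℕ) < 4 by norm_num, dif_pos]
      have f0 : (⟨0, by norm_num⟩ : Fin 4) = 0 := rfl
      have f1 : (⟨1, by norm_num⟩ : Fin 4) = 1 := rfl
      have f2 : (⟨2, by norm_num⟩ : Fin 4) = 2 := rfl
      have f3 : (⟨3, by norm_num⟩ : Fin 4) = 3 := rfl
      simp only [f0, f1, f2, f3]
      by_cases g0 : n.testBit 0 = true <;> by_cases g1 : n.testBit 1 = true <;>
        by_cases g2 : n.testBit 2 = true <;> by_cases g3 : n.testBit 3 = true <;>
        simp only [g0, g1, g2, g3, Bool.false_eq_true, if_false, if_true] <;> ring_nf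
    rw [h1, Real.exp_sub, Real.exp_log hZ0]
  refine core2 (L := L) (K := K) hd had hlast ?_
    (fun n => (∑ h : Fin 3 → Bool, Real.exp (En W b c h (vv n))) / Z) ?_ he ho
  · intro j hj x _ d _ y _ z _ hpar
    simp only [hL, dif_pos hj, Fin.sum_univ_three]
    have p0 : ((x.testBit 0).toNat : ℝ) + (d.testBit 0).toNat =
        (y.testBit 0).toNat + (z.testBit 0).toNat := by exact_mod_cast hpar 0 (by norm_num)
    have p1 : ((x.testBit 1).toNat : ℝ) + (d.testBit 1).toNat =
        (y.testBit 1).toNat + (z.testBit 1).toNat := by exact_mod_cast hpar 1 (by norm_num)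
    have p2 : ((x.testBit 2).toNat : ℝ) + (d.testBit 2).toNat =
        (y.testBit 2).toNat + (z.testBit 2).toNat := by exact_mod_cast hpar 2 (by norm_num)
    simp only [Fin.isValue, Fin.val_zero, Fin.val_one, Fin.val_two]
    linear_combination W 0 ⟨j, hj⟩ * p0 + W 1 ⟨j, hj⟩ * p1 + W 2 ⟨j, hj⟩ * p2
  · intro n _
    rw [sum_hh, sum_div]
    exact sum_congr rfl fun m _ => hG m n

end Pool.Agent.TH231.RBM
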